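import Mathlib

set_option autoImplicit false

namespace Pool.Agent.Helper91PC

open Finset

/-- A map without fixed points on `n` points separates at least `2 (n - 1)` ordered pairs. -/
lemma topLevel {n : ℕ} (hn : 0 < n) (c : Fin n → Fin n) (hc : ∀ i, c i ≠ i) :
    2 * ((n : ℝ) - 1) ≤ ∑ p ∈ (univ : Finset (Fin n)).offDiag, if c p.1 ≠ c p.2 then (1 : ℝ) else 0 := by
  classical
  set v : Fin n := c ⟨0, hn⟩ with hv
  set A : Finset (Fin n) := univ.filter (fun i => c i = v) with hA
  have hA1 : A.Nonempty := ⟨⟨0, hn⟩, by simp [hA, hv]⟩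
  have hA2 : Aᶜ.Nonempty := ⟨v, by simp [hA, hc v]⟩
  have hm1 : 1 ≤ A.card := hA1.card_pos
  have hm2 : 1 ≤ Aᶜ.card := hA2.card_pos
  have hsum : A.card + Aᶜ.card = n := by
    rw [Finset.card_add_card_compl, Fintype.card_fin]
  have hsub : (A ×ˢ Aᶜ) ∪ (Aᶜ ×ˢ A) ⊆ (univ : Finset (Fin n)).offDiag.filter
      (fun p => c p.1 ≠ c p.2) := by
    intro p hp
    rw [Finset.mem_filter, Finset.mem_offDiag]
    simp only [Finset.mem_univ, true_and]
    rcases Finset.mem_union.1 hp with h | h
    · rw [Finset.mem_product] at h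
      have h1 : c p.1 = v := by simpa [hA] using h.1
      have h2 : c p.2 ≠ v := by simpa [hA] using h.2
      have h3 : c p.1 ≠ c p.2 := by rw [h1]; exact h2.symm
      exact ⟨fun h => h3 (congrArg c h), h3⟩
    · rw [Finset.mem_product] at h
      have h1 : c p.1 ≠ v := by simpa [hA] using h.1
      have h2 : c p.2 = v := by simpa [hA] using h.2
      have h3 : c p.1 ≠ c p.2 := by rw [h2]; exact h1
      exact ⟨fun h => h3 (congrArg c h), h3⟩
  have hdisj : Disjoint (A ×ˢ Aᶜ) (Aᶜ ×ˢ A) := by
    rw [Finset.disjoint_left]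
    intro p h1 h2
    rw [Finset.mem_product] at h1 h2
    exact (Finset.mem_compl.1 h2.1) h1.1
  have hcard := Finset.card_le_card hsub
  rw [Finset.card_union_of_disjoint hdisj, Finset.card_product, Finset.card_product] at hcard
  rw [← Finset.sum_filter, Finset.sum_const, nsmul_eq_mul, mul_one]
  have h1 : (n : ℝ) = A.card + Aᶜ.card := by exact_mod_cast hsum.symm
  have h2 : ((A.card * Aᶜ.card + Aᶜ.card * A.card : ℕ) : ℝ) ≤
    (((univ : Finset (Fin n)).offDiag.filter (fun p => c p.1 ≠ c p.2)).card : ℝ) := by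
    exact_mod_cast hcard
  refine le_trans ?_ h2
  push_cast
  rw [h1]
  have h3 : (1 : ℝ) ≤ A.card := by exact_mod_cast hm1
  have h4 : (1 : ℝ) ≤ Aᶜ.card := by exact_mod_cast hm2
  nlinarith [mul_nonneg (sub_nonneg.2 h3) (sub_nonneg.2 h4)]

/-- The pointwise combinatorial inequality. -/
theorem comb {n : ℕ} (hn : 0 < n) (x : Fin n → Fin n × Bool)
    (y : Fin n → Bool → Fin n → Bool → Fin n × Bool)
    (c : Fin n × Bool → Fin n × Bool → ℝ)
    (hx : ∀ i, (x i).1 ≠ i)
    (hy1 : ∀ i a j b, i ≠ j → y i a j b ≠ (i, a))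
    (hy2 : ∀ i a j b, i ≠ j → y i a j b ≠ (j, b))
    (hsym : ∀ i a j b, i ≠ j → y i a j b = y j b i a)
    (hc0 : ∀ z w, 0 ≤ c z w)
    (hc1 : ∀ z w, z ≠ w → 1 ≤ c z w) (hc2 : ∀ z w, z.1 ≠ w.1 → 2 ≤ c z w) :
    2 * (∑ p ∈ (univ : Finset (Fin n)).offDiag, ∑ a : Bool, ∑ b : Bool,
        if y p.1 a p.2 b = (p.2, !b) then (1 : ℝ) else 0) + 24 * ((n : ℝ) - 1)
    ≤ (∑ p ∈ (univ : Finset (Fin n)).offDiag, ∑ a : Bool,
        c (y p.1 a p.2 false) (y p.1 a p.2 true))
      + 3 * ∑ p ∈ (univ : Finset (Fin n)).offDiag, ∑ a : Bool, ∑ b : Bool,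
        c (x p.1) (y p.1 a p.2 b) := by
  classical
  -- mismatch indicator
  set A : Fin n → Bool → Fin n → Bool → ℝ := fun i a j b =>
    if y i a j b = (j, !b) ∧ x i ≠ (j, !b) then 1 else 0 with hA
  have hA0 : ∀ i a j b, 0 ≤ A i a j b := by
    intro i a j b; simp only [hA]; split_ifs <;> norm_num
  -- local inequality for cross steps
  have hF : ∀ i a j b, i ≠ j →
      2 * (if (x i).1 ≠ (x j).1 then (1 : ℝ) else 0) + A i a j b + A j b i a
        ≤ c (x i) (y i a j b) + c (x j) (y j b i a) := by
    intro i a j b hij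
    have hs := hsym i a j b hij
    have hne1 := hy1 i a j b hij
    have hne2 := hy2 i a j b hij
    rw [← hs]
    set w := y i a j b with hw
    have hind : (if (x i).1 ≠ (x j).1 then (1 : ℝ) else 0) ≤ 1 := by split_ifs <;> norm_num
    by_cases h1 : w = (j, !b)
    · -- w in cluster j
      have hB : A j b i a = 0 := by
        simp only [hA]
        rw [if_neg]
        rintro ⟨h2, -⟩
        rw [← hs, h1] at h2
        exact hij (congrArg Prod.fst h2).symm
      have h3 : 2 ≤ c (x j) w := by
        apply hc2; rw [h1]; exact hx j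
      by_cases h4 : x i = (j, !b)
      · have hA' : A i a j b = 0 := by
          simp only [hA]; rw [if_neg]; rintro ⟨-, h5⟩; exact h5 h4
        rw [hB, hA']
        have := hc0 (x i) w
        linarith
      · have hA' : A i a j b ≤ 1 := by
          simp only [hA]; split_ifs <;> norm_num
        have h5 : 1 ≤ c (x i) w := hc1 _ _ (by rw [h1]; exact h4)
        rw [hB]; linarith
    · have hA1 : A i a j b = 0 := by
        simp only [hA]; rw [if_neg]; rintro ⟨h5, -⟩; exact h1 h5
      rw [hA1]
      by_cases h2 : w = (i, !a)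
      · have h3 : 2 ≤ c (x i) w := by
          apply hc2; rw [h2]; exact hx i
        by_cases h4 : x j = (i, !a)
        · have hA' : A j b i a = 0 := by
            simp only [hA]; rw [if_neg]; rintro ⟨-, h5⟩; exact h5 h4
          rw [hA']
          have := hc0 (x j) w
          linarith
        · have hA' : A j b i a ≤ 1 := by
            simp only [hA]; split_ifs <;> norm_num
          have h5 : 1 ≤ c (x j) w := hc1 _ _ (by rw [h2]; exact h4)
          linarith
      · have hA2 : A j b i a = 0 := by
          simp only [hA]; rw [if_neg]; rintro ⟨h5, -⟩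
          rw [← hs] at h5; exact h2 h5
        rw [hA2]
        by_cases h3 : (x i).1 = (x j).1
        · rw [if_neg (by simpa using h3)]
          have := hc0 (x i) w
          have := hc0 (x j) w
          linarith
        · rw [if_pos h3]
          by_cases h4 : (x i).1 = w.1
          · have h5 : (x j).1 ≠ w.1 := by rw [← h4]; exact Ne.symm h3
            have := hc2 _ _ h5
            have := hc0 (x i) w
            linarith
          · have := hc2 _ _ h4
            have := hc0 (x j) w
            linarith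
  -- local inequality for swaps
  have hS : ∀ i a j, i ≠ j →
      2 * (∑ b : Bool, if y i a j b = (j, !b) then (1 : ℝ) else 0) - 3 * ∑ b : Bool, A i a j b
        ≤ c (y i a j false) (y i a j true) := by
    intro i a j hij
    simp only [Fintype.sum_bool, Bool.not_true, Bool.not_false]
    have hne1 := hy2 i a j true hij
    have hne2 := hy2 i a j false hij
    have hAt := hA0 i a j true
    have hAf := hA0 i a j false
    have hcc := hc0 (y i a j false) (y i a j true)
    by_cases h1 : y i a j true = (j, false)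
    · by_cases h2 : y i a j false = (j, true)
      · -- both
        have h3 : 1 ≤ c (y i a j false) (y i a j true) := hc1 _ _ (by rw [h1, h2]; simp)
        have h4 : 1 ≤ A i a j true + A i a j false := by
          by_cases h5 : x i = (j, false)
          · have : A i a j false = 1 := by
              simp only [hA, Bool.not_false]
              rw [if_pos]; exact ⟨h2, by rw [h5]; simp⟩
            linarith
          · have : A i a j true = 1 := by
              simp only [hA, Bool.not_true]
              rw [if_pos]; exact ⟨h1, h5⟩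
            linarith
        rw [if_pos h1, if_pos h2]; linarith
      · have h3 : (y i a j false).1 ≠ j := by
          intro h
          rcases hb : (y i a j false).2 with _ | _
          · exact hne2 (Prod.ext h hb)
          · exact h2 (Prod.ext h hb)
        have h4 : 2 ≤ c (y i a j false) (y i a j true) := by
          apply hc2; rw [h1]; exact h3
        rw [if_pos h1, if_neg h2]; linarith
    · by_cases h2 : y i a j false = (j, true)
      · have h3 : (y i a j true).1 ≠ j := by
          intro h
          rcases hb : (y i a j true).2 with _ | _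
          · exact h1 (Prod.ext h hb)
          · exact hne1 (Prod.ext h hb)
        have h4 : 2 ≤ c (y i a j false) (y i a j true) := by
          apply hc2; rw [h2]; exact Ne.symm h3
        rw [if_neg h1, if_pos h2]; linarith
      · rw [if_neg h1, if_neg h2]; linarith
  have htop := topLevel hn (fun i => (x i).1) hx
  -- swap symmetry of the off-diagonal sum
  have hswap : ∀ G : Fin n → Bool → Fin n → Bool → ℝ,
      ∑ p ∈ (univ : Finset (Fin n)).offDiag, ∑ a : Bool, ∑ b : Bool, G p.2 b p.1 a
        = ∑ p ∈ (univ : Finset (Fin n)).offDiag, ∑ a : Bool, ∑ b : Bool, G p.1 a p.2 b := by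
    intro G
    have h1 : ∑ p ∈ (univ : Finset (Fin n)).offDiag, ∑ a : Bool, ∑ b : Bool, G p.2 b p.1 a
        = ∑ p ∈ (univ : Finset (Fin n)).offDiag, ∑ b : Bool, ∑ a : Bool, G p.2 b p.1 a := by
      apply Finset.sum_congr rfl
      intro p _
      exact Finset.sum_comm
    rw [h1]
    refine Finset.sum_bij' (fun p _ => (p.2, p.1)) (fun p _ => (p.2, p.1)) ?_ ?_ ?_ ?_ ?_
    · intro p hp; simp only [Finset.mem_offDiag, Finset.mem_univ, true_and] at hp ⊢; exact Ne.symm hp
    · intro p hp; simp only [Finset.mem_offDiag, Finset.mem_univ, true_and] at hp ⊢; exact Ne.symm hp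
    · intro p _; rfl
    · intro p _; rfl
    · intro p _; rfl
  have hcross : 2 * (4 * ∑ p ∈ (univ : Finset (Fin n)).offDiag,
        (if (x p.1).1 ≠ (x p.2).1 then (1 : ℝ) else 0))
      + 2 * ∑ p ∈ (univ : Finset (Fin n)).offDiag, ∑ a : Bool, ∑ b : Bool, A p.1 a p.2 b
      ≤ 2 * ∑ p ∈ (univ : Finset (Fin n)).offDiag, ∑ a : Bool, ∑ b : Bool,
        c (x p.1) (y p.1 a p.2 b) := by
    have h1 : ∑ p ∈ (univ : Finset (Fin n)).offDiag, ∑ a : Bool, ∑ b : Bool,
        (2 * (if (x p.1).1 ≠ (x p.2).1 then (1 : ℝ) else 0) + A p.1 a p.2 b + A p.2 b p.1 a)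
        ≤ ∑ p ∈ (univ : Finset (Fin n)).offDiag, ∑ a : Bool, ∑ b : Bool,
        (c (x p.1) (y p.1 a p.2 b) + c (x p.2) (y p.2 b p.1 a)) := by
      apply Finset.sum_le_sum
      intro p hp
      apply Finset.sum_le_sum
      intro a _
      apply Finset.sum_le_sum
      intro b _
      exact hF p.1 a p.2 b (Finset.mem_offDiag.1 hp).2.2
    simp only [Finset.sum_add_distrib] at h1
    rw [hswap (fun i a j b => A i a j b), hswap (fun i a j b => c (x i) (y i a j b))] at h1
    have h2 : ∑ p ∈ (univ : Finset (Fin n)).offDiag, ∑ a : Bool, ∑ b : Bool,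
        2 * (if (x p.1).1 ≠ (x p.2).1 then (1 : ℝ) else 0)
        = 2 * (4 * ∑ p ∈ (univ : Finset (Fin n)).offDiag,
        (if (x p.1).1 ≠ (x p.2).1 then (1 : ℝ) else 0)) := by
      rw [Finset.mul_sum, Finset.mul_sum]
      apply Finset.sum_congr rfl
      intro p _
      simp only [Finset.sum_const, Finset.card_univ, Fintype.card_bool, nsmul_eq_mul]
      push_cast; ring
    rw [h2] at h1
    linarith
  have hswaps : 2 * (∑ p ∈ (univ : Finset (Fin n)).offDiag, ∑ a : Bool, ∑ b : Bool,
        if y p.1 a p.2 b = (p.2, !b) then (1 : ℝ) else 0)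
      - 3 * ∑ p ∈ (univ : Finset (Fin n)).offDiag, ∑ a : Bool, ∑ b : Bool, A p.1 a p.2 b
      ≤ ∑ p ∈ (univ : Finset (Fin n)).offDiag, ∑ a : Bool,
        c (y p.1 a p.2 false) (y p.1 a p.2 true) := by
    rw [Finset.mul_sum, Finset.mul_sum, ← Finset.sum_sub_distrib]
    apply Finset.sum_le_sum
    intro p hp
    rw [Finset.mul_sum, Finset.mul_sum, ← Finset.sum_sub_distrib]
    apply Finset.sum_le_sum
    intro a _
    exact hS p.1 a p.2 (Finset.mem_offDiag.1 hp).2.2
  linarith

end Pool.Agent.Helper91PC
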