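import Mathlib

/-!
# Pairwise coupling ratio for power costs on the line: definitions
-/

set_option autoImplicit false

open MeasureTheory
open scoped ENNReal NNReal

namespace Pool.Agent.Helper91PC

/-- The cost `c_q(x, y) = |x - y| ^ q`, as an extended nonnegative real. -/
noncomputable def cost (q x y : ℝ) : ℝ≥0∞ := ENNReal.ofReal (|x - y| ^ q)

/-- The optimal transport cost `C*_{c_q}(P, Q)`: the infimum of `E[c_q(X, Y)]` over all joint laws
`π` of pairs `(X, Y)` with `X ∼ P` and `Y ∼ Q`. -/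
noncomputable def optimalCost (q : ℝ) (P Q : ProbabilityMeasure ℝ) : ℝ≥0∞ :=
  ⨅ (π : Measure (ℝ × ℝ)) (_ : π.map Prod.fst = P ∧ π.map Prod.snd = Q),
    ∫⁻ z, cost q z.1 z.2 ∂π

/-- A coupling of `𝒫(ℝ)`: a family `X_P`, indexed by all Borel probability measures `P` on `ℝ`, of
Lebesgue-measurable maps from `[0,1]` (with Lebesgue measure) to `ℝ` such that `X_P` has law `P`.
(A real function on `[0,1]` is Lebesgue measurable iff it is a.e. measurable for the Borel
`σ`-algebra.) -/
structure IsCoupling (X : ProbabilityMeasure ℝ → unitInterval → ℝ) : Prop where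
  aemeasurable : ∀ P, AEMeasurable (X P) volume
  law : ∀ P : ProbabilityMeasure ℝ, Measure.map (X P) volume = (P : Measure ℝ)

/-- The pairwise coupling ratio of a coupling: the infimum of the real numbers `r ≥ 1` such that
`E[c_q(X_P, X_Q)] ≤ r * C*_{c_q}(P, Q)` for all `P, Q` (and `∞` if there is no such `r`). -/
noncomputable def pairRatio (q : ℝ) (X : ProbabilityMeasure ℝ → unitInterval → ℝ) : ℝ≥0∞ :=
  ⨅ (r : ℝ≥0) (_ : 1 ≤ r ∧ ∀ P Q, ∫⁻ ω, cost q (X P ω) (X Q ω) ≤ r * optimalCost q P Q),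
    (r : ℝ≥0∞)

/-- The optimal pairwise coupling ratio `r*_{c_q}(𝒫(ℝ))`. -/
noncomputable def optRatio (q : ℝ) : ℝ≥0∞ :=
  ⨅ (X : ProbabilityMeasure ℝ → unitInterval → ℝ) (_ : IsCoupling X), pairRatio q X

end Pool.Agent.Helper91PC
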