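import Pool.Agent.Helper91_PC.Lower

set_option autoImplicit false

open MeasureTheory Finset
open scoped ENNReal NNReal

namespace Pool.Agent.Helper91PC

theorem ratio_ge {q : ℝ} (h0 : 0 < q) (h1 : q ≤ 1 / 100)
    {X : ProbabilityMeasure ℝ → unitInterval → ℝ} (hX : IsCoupling X) (r : ℝ≥0)
    (hr : ∀ P Q, ∫⁻ ω, cost q (X P ω) (X Q ω) ≤ r * optimalCost q P Q) :
    (1350 / 674 : ℝ) ≤ r := by
  classical
  have hint := integrated h0 h1 hX
  have h46 : (46 : ℝ≥0∞)⁻¹ = ENNReal.ofReal (1 / 46) := by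
    rw [one_div, ENNReal.ofReal_inv_of_pos (by norm_num)]
    simp
  have hrr : (r : ℝ≥0∞) = ENNReal.ofReal r := by simp
  have hr0 : (0 : ℝ) ≤ r := r.2
  have hne : ∀ (i j : Fin 24) (a b : Bool), i ≠ j → ((i, a) : Fin 24 × Bool) ≠ (j, b) :=
      fun i j a b h h2 => h (congrArg Prod.fst h2)
  -- indicator terms
  have hind : ∀ p ∈ (univ : Finset (Fin 24)).offDiag, ∀ a b : Bool,
      ∫⁻ ω : unitInterval, (if X (V2 q (p.1, a) (p.2, b)) ω = pos q (p.2, !b)
          then (1 : ℝ≥0∞) else 0) = ENNReal.ofReal (1 / 46) := by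
    intro p hp a b
    have hpp := (Finset.mem_offDiag.1 hp).2.2
    have hcard := card_compl_pair (hne p.1 p.2 a b hpp)
    have := lintegral_ind h0 h1 hX (univ \ {(p.1, a), (p.2, b)})
      (nonempty_compl_pair (hne p.1 p.2 a b hpp)) (p.2, !b)
      (by
        simp only [Finset.mem_sdiff, Finset.mem_univ, true_and, Finset.mem_insert,
          Finset.mem_singleton, not_or]
        refine ⟨(hne p.1 p.2 a (!b) hpp).symm, ?_⟩
        intro h
        have := congrArg Prod.snd h
        cases b <;> simp at this)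
    rw [hcard] at this
    unfold V2
    rw [this, ← h46]
    norm_num
  -- generic transport bound
  have hgen : ∀ u v w : Fin 24 × Bool, u ≠ v → u ≠ w → v ≠ w → ∀ c : ℝ, cR q w v ≤ c →
      ∫⁻ ω : unitInterval, cost q (X (V2 q u v) ω) (X (V2 q u w) ω)
        ≤ ENNReal.ofReal (r / 46 * c) := by
    intro u v w huv huw hvw c hc
    refine (hr _ _).trans ?_
    refine (mul_le_mul_right (transport q huv huw hvw h0) _).trans ?_
    rw [h46, hrr, ← ENNReal.ofReal_mul (by norm_num), ← ENNReal.ofReal_mul hr0]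
    apply ENNReal.ofReal_le_ofReal
    have := cR_nonneg q w v
    have h3 : (r : ℝ) * (1 / 46 * cR q w v) = r / 46 * cR q w v := by ring
    rw [h3]
    gcongr
  have hsw : ∀ p ∈ (univ : Finset (Fin 24)).offDiag, ∀ a : Bool,
      ∫⁻ ω : unitInterval, cost q (X (V2 q (p.1, a) (p.2, false)) ω)
          (X (V2 q (p.1, a) (p.2, true)) ω) ≤ ENNReal.ofReal (r / 46 * 1) := by
    intro p hp a
    have hpp := (Finset.mem_offDiag.1 hp).2.2
    exact hgen _ _ _ (hne _ _ _ _ hpp) (hne _ _ _ _ hpp) (by simp) 1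
      (cR_near (z := (p.2, true)) (w := (p.2, false)) rfl (by simp)).le
  have hcr : ∀ p ∈ (univ : Finset (Fin 24)).offDiag, ∀ a b : Bool,
      ∫⁻ ω : unitInterval, cost q (X (V2 q (p.1, false) (p.1, true)) ω)
          (X (V2 q (p.1, a) (p.2, b)) ω) ≤ ENNReal.ofReal (r / 46 * (208 / 100)) := by
    intro p hp a b
    have hpp := (Finset.mem_offDiag.1 hp).2.2
    have h3 : V2 q (p.1, false) (p.1, true) = V2 q (p.1, a) (p.1, !a) := by
      cases a
      · rfl
      · exact V2_comm q _ _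
    rw [h3]
    exact hgen _ _ _ (by cases a <;> simp) (hne _ _ _ _ hpp) (hne _ _ _ _ hpp) _
      (cR_le h0 h1 _ _)
  have hcard : (univ : Finset (Fin 24)).offDiag.card = 552 := by
    rw [Finset.offDiag_card]; simp
  have hL : (∑ p ∈ (univ : Finset (Fin 24)).offDiag, ∑ a : Bool, ∑ b : Bool,
        ∫⁻ ω : unitInterval, (if X (V2 q (p.1, a) (p.2, b)) ω = pos q (p.2, !b)
          then (1 : ℝ≥0∞) else 0)) = ENNReal.ofReal (552 * (2 * (2 * (1 / 46)))) := by
    rw [Finset.sum_congr rfl (fun p hp => Finset.sum_congr rfl (fun a _ =>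
      Finset.sum_congr rfl (fun b _ => hind p hp a b)))]
    simp only [Finset.sum_const, Finset.card_univ, Fintype.card_bool, hcard, nsmul_eq_mul]
    rw [ENNReal.ofReal_mul (by norm_num), ENNReal.ofReal_mul (by norm_num),
      ENNReal.ofReal_mul (by norm_num)]
    simp
  have hR1 : (∑ p ∈ (univ : Finset (Fin 24)).offDiag, ∑ a : Bool,
        ∫⁻ ω : unitInterval, cost q (X (V2 q (p.1, a) (p.2, false)) ω)
          (X (V2 q (p.1, a) (p.2, true)) ω)) ≤ ENNReal.ofReal (552 * (2 * (r / 46 * 1))) := by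
    refine (Finset.sum_le_sum (fun p hp => Finset.sum_le_sum (fun a _ => hsw p hp a))).trans ?_
    simp only [Finset.sum_const, Finset.card_univ, Fintype.card_bool, hcard, nsmul_eq_mul]
    rw [ENNReal.ofReal_mul (p := 552) (by norm_num), ENNReal.ofReal_mul (p := 2) (by norm_num)]
    simp
  have hR2 : (∑ p ∈ (univ : Finset (Fin 24)).offDiag, ∑ a : Bool, ∑ b : Bool,
        ∫⁻ ω : unitInterval, cost q (X (V2 q (p.1, false) (p.1, true)) ω)
          (X (V2 q (p.1, a) (p.2, b)) ω))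
          ≤ ENNReal.ofReal (552 * (2 * (2 * (r / 46 * (208 / 100))))) := by
    refine (Finset.sum_le_sum (fun p hp => Finset.sum_le_sum (fun a _ =>
      Finset.sum_le_sum (fun b _ => hcr p hp a b)))).trans ?_
    simp only [Finset.sum_const, Finset.card_univ, Fintype.card_bool, hcard, nsmul_eq_mul]
    rw [ENNReal.ofReal_mul (p := 552) (by norm_num), ENNReal.ofReal_mul (p := 2) (by norm_num),
      ENNReal.ofReal_mul (p := 2) (by norm_num)]
    simp
  have t2 : (2 : ℝ≥0∞) = ENNReal.ofReal 2 := by simp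
  have t3 : (3 : ℝ≥0∞) = ENNReal.ofReal 3 := by simp
  have t552 : (552 : ℝ≥0∞) = ENNReal.ofReal 552 := by simp
  have hfin : ENNReal.ofReal (2 * (552 * (2 * (2 * (1 / 46)))) + 552)
      ≤ ENNReal.ofReal (552 * (2 * (r / 46 * 1)) + 3 * (552 * (2 * (2 * (r / 46 * (208 / 100)))))) := by
    have hpos1 : (0 : ℝ) ≤ 552 * (2 * (r / 46 * 1)) := by positivity
    have hpos2 : (0 : ℝ) ≤ 552 * (2 * (2 * (r / 46 * (208 / 100)))) := by positivity
    rw [ENNReal.ofReal_add (by norm_num) (by norm_num), ENNReal.ofReal_mul (p := 2) (by norm_num),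
      ENNReal.ofReal_add hpos1 (mul_nonneg (by norm_num) hpos2),
      ENNReal.ofReal_mul (p := 3) (by norm_num), ← t2, ← t3, ← t552, ← hL]
    exact hint.trans (add_le_add hR1 (mul_le_mul_right hR2 _))
  rw [ENNReal.ofReal_le_ofReal_iff (by positivity)] at hfin
  rw [div_le_iff₀ (by norm_num)]
  linarith

theorem optRatio_gt_two {q : ℝ} (h0 : 0 < q) (h1 : q ≤ 1 / 100) : 2 < optRatio q := by
  have h2 : (2 : ℝ≥0∞) < ENNReal.ofReal (1350 / 674) := by
    have : (2 : ℝ≥0∞) = ENNReal.ofReal 2 := by simp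
    rw [this, ENNReal.ofReal_lt_ofReal_iff (by norm_num)]
    norm_num
  refine lt_of_lt_of_le h2 ?_
  unfold optRatio pairRatio
  refine le_iInf₂ (fun X hX => le_iInf₂ (fun r hr => ?_))
  have h3 := ratio_ge h0 h1 hX r hr.2
  have h4 : (r : ℝ≥0∞) = ENNReal.ofReal r := by simp
  rw [h4]
  exact ENNReal.ofReal_le_ofReal h3

end Pool.Agent.Helper91PC
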