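import Pool.Agent.Helper91_PC.Defs
import Pool.Agent.Helper91_PC.Comb

set_option autoImplicit false

open MeasureTheory Finset
open scoped ENNReal NNReal

namespace Pool.Agent.Helper91PC

/-- the distance between clusters -/
noncomputable def DD (q : ℝ) : ℝ := 2 ^ (1 / q) + 1

/-- positions of the points: 24 clusters of two points at distance one -/
noncomputable def pos (q : ℝ) (z : Fin 24 × Bool) : ℝ := (z.1 : ℝ) * DD q + if z.2 then 1 else 0

lemma two_pow_ge {q : ℝ} (h0 : 0 < q) (h1 : q ≤ 1 / 100) : (2 : ℝ) ≤ 2 ^ (1 / q) := by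
  have h2 : (1 : ℝ) ≤ 1 / q := by
    rw [le_div_iff₀ h0]; linarith
  calc (2 : ℝ) = 2 ^ (1 : ℝ) := (Real.rpow_one 2).symm
    _ ≤ 2 ^ (1 / q) := Real.rpow_le_rpow_of_exponent_le (by norm_num) h2

lemma ind_bound (b c : Bool) : |(if b then (1 : ℝ) else 0) - (if c then 1 else 0)| ≤ 1 := by
  cases b <;> cases c <;> norm_num

lemma pos_far {q : ℝ} (h0 : 0 < q) (h1 : q ≤ 1 / 100) {z w : Fin 24 × Bool} (h : z.1 ≠ w.1) :
    2 ^ (1 / q) ≤ |pos q z - pos q w| := by
  have hD : (0 : ℝ) < DD q := by unfold DD; have := two_pow_ge h0 h1; linarith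
  have h2 : (1 : ℝ) ≤ |((z.1 : ℕ) : ℝ) - ((w.1 : ℕ) : ℝ)| := by
    have h3 : ((z.1 : ℕ) : ℤ) - ((w.1 : ℕ) : ℤ) ≠ 0 := by
      intro h4
      apply h
      apply Fin.ext
      omega
    have h5 := Int.one_le_abs h3
    exact_mod_cast h5
  have h6 := ind_bound z.2 w.2
  have h7 : pos q z - pos q w = (((z.1 : ℕ) : ℝ) - ((w.1 : ℕ) : ℝ)) * DD q
      + ((if z.2 then (1 : ℝ) else 0) - (if w.2 then 1 else 0)) := by
    unfold pos; ring
  rw [h7]
  have h8 : |(((z.1 : ℕ) : ℝ) - ((w.1 : ℕ) : ℝ)) * DD q|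
      - |((if z.2 then (1 : ℝ) else 0) - (if w.2 then 1 else 0))|
      ≤ |(((z.1 : ℕ) : ℝ) - ((w.1 : ℕ) : ℝ)) * DD q
      + ((if z.2 then (1 : ℝ) else 0) - (if w.2 then 1 else 0))| := by
    have := abs_sub_abs_le_abs_sub ((((z.1 : ℕ) : ℝ) - ((w.1 : ℕ) : ℝ)) * DD q)
      (-((if z.2 then (1 : ℝ) else 0) - (if w.2 then 1 else 0)))
    rwa [abs_neg, sub_neg_eq_add] at this
  rw [abs_mul, abs_of_pos hD] at h8
  have h9 : DD q ≤ |((z.1 : ℕ) : ℝ) - ((w.1 : ℕ) : ℝ)| * DD q := by nlinarith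
  have h10 : DD q = 2 ^ (1 / q) + 1 := rfl
  linarith

lemma pos_near {q : ℝ} {z w : Fin 24 × Bool} (h : z.1 = w.1) (h' : z ≠ w) :
    |pos q z - pos q w| = 1 := by
  have h2 : z.2 ≠ w.2 := fun h3 => h' (Prod.ext h h3)
  unfold pos
  rw [h]
  have : (((w.1 : ℕ) : ℝ) * DD q + if z.2 then 1 else 0) - (((w.1 : ℕ) : ℝ) * DD q + if w.2 then 1 else 0)
    = ((if z.2 then (1 : ℝ) else 0) - (if w.2 then 1 else 0)) := by ring
  rw [this]
  rcases hz : z.2 with _ | _ <;> rcases hw : w.2 with _ | _ <;> simp_all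

/-- the real cost between positions -/
noncomputable def cR (q : ℝ) (z w : Fin 24 × Bool) : ℝ := |pos q z - pos q w| ^ q

lemma cR_nonneg (q : ℝ) (z w : Fin 24 × Bool) : 0 ≤ cR q z w :=
  Real.rpow_nonneg (abs_nonneg _) q

lemma cR_far {q : ℝ} (h0 : 0 < q) (h1 : q ≤ 1 / 100) {z w : Fin 24 × Bool} (h : z.1 ≠ w.1) :
    2 ≤ cR q z w := by
  have h2 := pos_far h0 h1 h
  calc (2 : ℝ) = (2 ^ (1 / q)) ^ q := by
        rw [← Real.rpow_mul (by norm_num), one_div_mul_cancel h0.ne', Real.rpow_one]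
    _ ≤ cR q z w := Real.rpow_le_rpow (by positivity) h2 h0.le

lemma cR_near {q : ℝ} {z w : Fin 24 × Bool} (h : z.1 = w.1) (h' : z ≠ w) :
    cR q z w = 1 := by
  unfold cR; rw [pos_near h h', Real.one_rpow]

lemma cR_ne {q : ℝ} (h0 : 0 < q) (h1 : q ≤ 1 / 100) {z w : Fin 24 × Bool} (h : z ≠ w) :
    1 ≤ cR q z w := by
  by_cases h2 : z.1 = w.1
  · rw [cR_near h2 h]
  · linarith [cR_far h0 h1 h2]

lemma pos_inj {q : ℝ} (h0 : 0 < q) (h1 : q ≤ 1 / 100) : Function.Injective (pos q) := by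
  intro z w h
  by_contra hne
  have := cR_ne h0 h1 hne
  unfold cR at this
  rw [h, sub_self, abs_zero, Real.zero_rpow h0.ne'] at this
  linarith

lemma cR_le {q : ℝ} (h0 : 0 < q) (h1 : q ≤ 1 / 100) (z w : Fin 24 × Bool) :
    cR q z w ≤ 208 / 100 := by
  have hge := two_pow_ge h0 h1
  have h2 : |pos q z - pos q w| ≤ 47 * 2 ^ (1 / q) := by
    have h6 := ind_bound z.2 w.2
    have h7 : pos q z - pos q w = (((z.1 : ℕ) : ℝ) - ((w.1 : ℕ) : ℝ)) * DD q
        + ((if z.2 then (1 : ℝ) else 0) - (if w.2 then 1 else 0)) := by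
      unfold pos; ring
    rw [h7]
    have hD : (0 : ℝ) < DD q := by unfold DD; linarith
    have h8 : |((z.1 : ℕ) : ℝ) - ((w.1 : ℕ) : ℝ)| ≤ 23 := by
      have hz : ((z.1 : ℕ) : ℝ) ≤ 23 := by exact_mod_cast Nat.le_of_lt_succ z.1.2
      have hw : ((w.1 : ℕ) : ℝ) ≤ 23 := by exact_mod_cast Nat.le_of_lt_succ w.1.2
      have hz0 : (0 : ℝ) ≤ ((z.1 : ℕ) : ℝ) := Nat.cast_nonneg _
      have hw0 : (0 : ℝ) ≤ ((w.1 : ℕ) : ℝ) := Nat.cast_nonneg _
      rw [abs_le]; constructor <;> linarith
    calc _ ≤ |(((z.1 : ℕ) : ℝ) - ((w.1 : ℕ) : ℝ)) * DD q|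
        + |((if z.2 then (1 : ℝ) else 0) - (if w.2 then 1 else 0))| := abs_add_le _ _
      _ ≤ 23 * DD q + 1 := by
        rw [abs_mul, abs_of_pos hD]; nlinarith
      _ ≤ 47 * 2 ^ (1 / q) := by unfold DD; linarith
  have h3 : (47 : ℝ) ^ q ≤ 104 / 100 := by
    calc (47 : ℝ) ^ q ≤ 47 ^ (1 / 100 : ℝ) :=
          Real.rpow_le_rpow_of_exponent_le (by norm_num) h1
      _ ≤ ((104 / 100 : ℝ) ^ (100 : ℕ)) ^ (1 / 100 : ℝ) := by
          apply Real.rpow_le_rpow (by norm_num) _ (by norm_num)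
          norm_num
      _ = 104 / 100 := by
          rw [← Real.rpow_natCast, ← Real.rpow_mul (by norm_num)]
          norm_num
  calc cR q z w ≤ (47 * 2 ^ (1 / q)) ^ q := Real.rpow_le_rpow (abs_nonneg _) h2 h0.le
    _ = 47 ^ q * 2 := by
        rw [Real.mul_rpow (by norm_num) (by positivity), ← Real.rpow_mul (by norm_num),
          one_div_mul_cancel h0.ne', Real.rpow_one]
    _ ≤ 208 / 100 := by linarith

/-- the uniform measure on the positions of a set of points -/
noncomputable def unifM (q : ℝ) (S : Finset (Fin 24 × Bool)) : Measure ℝ :=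
  (S.card : ℝ≥0∞)⁻¹ • ∑ z ∈ S, Measure.dirac (pos q z)

lemma unifM_isProb (q : ℝ) (S : Finset (Fin 24 × Bool)) (h : S.Nonempty) :
    IsProbabilityMeasure (unifM q S) := by
  constructor
  unfold unifM
  rw [Measure.smul_apply, Measure.finsetSum_apply]
  simp only [measure_univ, Finset.sum_const, nsmul_eq_mul, mul_one, smul_eq_mul]
  apply ENNReal.inv_mul_cancel
  · simpa using h.ne_empty
  · exact ENNReal.natCast_ne_top _

/-- the same, as a probability measure -/
noncomputable def U (q : ℝ) (S : Finset (Fin 24 × Bool)) : ProbabilityMeasure ℝ :=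
  if h : S.Nonempty then (⟨unifM q S, unifM_isProb q S h⟩ : ProbabilityMeasure ℝ)
  else (⟨Measure.dirac 0, inferInstance⟩ : ProbabilityMeasure ℝ)

lemma U_coe (q : ℝ) (S : Finset (Fin 24 × Bool)) (h : S.Nonempty) :
    (U q S : Measure ℝ) = unifM q S := by
  have : U q S = (⟨unifM q S, unifM_isProb q S h⟩ : ProbabilityMeasure ℝ) := dif_pos h
  rw [this]; rfl

lemma lintegral_U (q : ℝ) (S : Finset (Fin 24 × Bool)) (h : S.Nonempty) (f : ℝ → ℝ≥0∞) :
    ∫⁻ x, f x ∂(U q S : Measure ℝ) = (S.card : ℝ≥0∞)⁻¹ * ∑ z ∈ S, f (pos q z) := by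
  rw [U_coe q S h, unifM, lintegral_smul_measure, lintegral_finsetSum_measure]
  simp only [lintegral_dirac, smul_eq_mul]

/-- the family: uniform measures on the complement of two points -/
noncomputable def V2 (q : ℝ) (u v : Fin 24 × Bool) : ProbabilityMeasure ℝ :=
  U q (univ \ {u, v})

lemma V2_comm (q : ℝ) (u v : Fin 24 × Bool) : V2 q u v = V2 q v u := by
  unfold V2; rw [Finset.pair_comm]

lemma card_compl_pair {u v : Fin 24 × Bool} (h : u ≠ v) :
    (univ \ {u, v} : Finset (Fin 24 × Bool)).card = 46 := by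
  rw [Finset.card_sdiff_of_subset (Finset.subset_univ _), Finset.card_pair h]
  simp [Finset.card_univ, Fintype.card_prod]

lemma nonempty_compl_pair {u v : Fin 24 × Bool} (h : u ≠ v) :
    (univ \ {u, v} : Finset (Fin 24 × Bool)).Nonempty := by
  rw [← Finset.card_pos, card_compl_pair h]; norm_num

/-- transport bound for moving one atom -/
lemma transport (q : ℝ) {u v w : Fin 24 × Bool} (huv : u ≠ v) (huw : u ≠ w) (hvw : v ≠ w)
    (hq : 0 < q) :
    optimalCost q (V2 q u v) (V2 q u w) ≤ (46 : ℝ≥0∞)⁻¹ * ENNReal.ofReal (cR q w v) := by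
  classical
  set R : Finset (Fin 24 × Bool) := univ \ {u, v, w} with hR
  have hwR : w ∉ R := by simp [hR]
  have hvR : v ∉ R := by simp [hR]
  have h1 : (univ \ {u, v} : Finset (Fin 24 × Bool)) = insert w R := by
    ext z
    simp only [hR, Finset.mem_sdiff, Finset.mem_univ, true_and, Finset.mem_insert,
      Finset.mem_singleton, not_or]
    constructor
    · rintro ⟨a, b⟩
      by_cases hz : z = w
      · exact Or.inl hz
      · exact Or.inr ⟨a, b, hz⟩
    · rintro (rfl | ⟨a, b, -⟩)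
      · exact ⟨huw.symm, hvw.symm⟩
      · exact ⟨a, b⟩
  have h2 : (univ \ {u, w} : Finset (Fin 24 × Bool)) = insert v R := by
    ext z
    simp only [hR, Finset.mem_sdiff, Finset.mem_univ, true_and, Finset.mem_insert,
      Finset.mem_singleton, not_or]
    constructor
    · rintro ⟨a, b⟩
      by_cases hz : z = v
      · exact Or.inl hz
      · exact Or.inr ⟨a, hz, b⟩
    · rintro (rfl | ⟨a, -, b⟩)
      · exact ⟨huv.symm, hvw⟩
      · exact ⟨a, b⟩
  have hc1 := card_compl_pair huv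
  have hc2 := card_compl_pair huw
  set π : Measure (ℝ × ℝ) := (46 : ℝ≥0∞)⁻¹ • (Measure.dirac (pos q w, pos q v)
    + ∑ z ∈ R, Measure.dirac (pos q z, pos q z)) with hπ
  have hm1 : π.map Prod.fst = (V2 q u v : Measure ℝ) := by
    unfold V2
    rw [U_coe q _ (nonempty_compl_pair huv), unifM, hc1, h1, Finset.sum_insert hwR, hπ,
      Measure.map_smul, Measure.map_add _ _ measurable_fst, Measure.map_dirac' measurable_fst,
      ← Measure.mapₗ_apply_of_measurable measurable_fst, map_sum]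
    simp only [Measure.mapₗ_apply_of_measurable measurable_fst, Measure.map_dirac' measurable_fst]
    norm_num
  have hm2 : π.map Prod.snd = (V2 q u w : Measure ℝ) := by
    unfold V2
    rw [U_coe q _ (nonempty_compl_pair huw), unifM, hc2, h2, Finset.sum_insert hvR, hπ,
      Measure.map_smul, Measure.map_add _ _ measurable_snd, Measure.map_dirac' measurable_snd,
      ← Measure.mapₗ_apply_of_measurable measurable_snd, map_sum]
    simp only [Measure.mapₗ_apply_of_measurable measurable_snd, Measure.map_dirac' measurable_snd]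
    norm_num
  refine (iInf₂_le π ⟨hm1, hm2⟩).trans ?_
  rw [hπ, lintegral_smul_measure, lintegral_add_measure, lintegral_finsetSum_measure]
  simp only [lintegral_dirac, smul_eq_mul]
  have h3 : ∀ z ∈ R, cost q (pos q z) (pos q z) = 0 := by
    intro z _
    unfold cost
    rw [sub_self, abs_zero, Real.zero_rpow hq.ne', ENNReal.ofReal_zero]
  rw [Finset.sum_congr rfl h3, Finset.sum_const_zero, add_zero]
  rfl

/-- a.e. value in the set of positions -/
lemma ae_mem {q : ℝ} {X : ProbabilityMeasure ℝ → unitInterval → ℝ}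
    (hX : IsCoupling X) (S : Finset (Fin 24 × Bool)) (hS : S.Nonempty) :
    ∀ᵐ ω : unitInterval, ∃ z ∈ S, X (U q S) ω = pos q z := by
  classical
  have h1 : ∀ᵐ x ∂(Measure.map (X (U q S)) volume), ∃ z ∈ S, x = pos q z := by
    rw [hX.law, U_coe q S hS, unifM]
    apply Measure.ae_smul_measure
    rw [ae_iff, Measure.finsetSum_apply]
    apply Finset.sum_eq_zero
    intro z hz
    have hmeas : MeasurableSet {a : ℝ | ¬∃ z ∈ S, a = pos q z} := by
      have : {a : ℝ | ¬∃ z ∈ S, a = pos q z} = ((S.image (pos q) : Finset ℝ) : Set ℝ)ᶜ := by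
        ext a; simp [eq_comm]
      rw [this]
      exact (Finset.measurableSet _).compl
    rw [Measure.dirac_apply' _ hmeas]
    simp only [Set.indicator_apply_eq_zero]
    intro h
    exact absurd ⟨z, hz, rfl⟩ h
  exact ae_of_ae_map (hX.aemeasurable _) h1

/-- expectation of the indicator of an atom -/
lemma lintegral_ind {q : ℝ} (h0 : 0 < q) (h1 : q ≤ 1 / 100)
    {X : ProbabilityMeasure ℝ → unitInterval → ℝ}
    (hX : IsCoupling X) (S : Finset (Fin 24 × Bool)) (hS : S.Nonempty) (z : Fin 24 × Bool)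
    (hz : z ∈ S) :
    ∫⁻ ω : unitInterval, (if X (U q S) ω = pos q z then (1 : ℝ≥0∞) else 0)
      = (S.card : ℝ≥0∞)⁻¹ := by
  classical
  have hf : Measurable (fun x : ℝ => if x = pos q z then (1 : ℝ≥0∞) else 0) :=
    Measurable.ite (measurableSet_eq_fun measurable_id measurable_const) measurable_const
      measurable_const
  have h2 := lintegral_map' (μ := (volume : Measure unitInterval)) (g := X (U q S))
    (f := fun x : ℝ => if x = pos q z then (1 : ℝ≥0∞) else 0) hf.aemeasurable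
    (hX.aemeasurable _)
  rw [← h2, hX.law, lintegral_U q S hS]
  rw [Finset.sum_eq_single z]
  · simp
  · intro w _ hw
    rw [if_neg]
    intro h
    exact hw (pos_inj h0 h1 h)
  · intro h; exact absurd hz h

lemma cost_aemeasurable (q : ℝ) {X : ProbabilityMeasure ℝ → unitInterval → ℝ}
    (hX : IsCoupling X) (P Q : ProbabilityMeasure ℝ) :
    AEMeasurable (fun ω : unitInterval => cost q (X P ω) (X Q ω)) volume := by
  unfold cost
  apply ENNReal.measurable_ofReal.comp_aemeasurable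
  exact ((hX.aemeasurable P).sub (hX.aemeasurable Q)).abs.pow_const q

lemma ind_aemeasurable (c : ℝ) {X : ProbabilityMeasure ℝ → unitInterval → ℝ}
    (hX : IsCoupling X) (P : ProbabilityMeasure ℝ) :
    AEMeasurable (fun ω : unitInterval => if X P ω = c then (1 : ℝ≥0∞) else 0) volume := by
  classical
  have hf : Measurable (fun x : ℝ => if x = c then (1 : ℝ≥0∞) else 0) :=
    Measurable.ite (measurableSet_eq_fun measurable_id measurable_const) measurable_const
      measurable_const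
  exact hf.comp_aemeasurable (hX.aemeasurable P)

lemma ofReal_sum2 (s : Finset (Fin 24 × Fin 24)) (f : Fin 24 × Fin 24 → Bool → ℝ)
    (hf : ∀ p ∈ s, ∀ a, 0 ≤ f p a) :
    ENNReal.ofReal (∑ p ∈ s, ∑ a : Bool, f p a) = ∑ p ∈ s, ∑ a : Bool, ENNReal.ofReal (f p a) := by
  rw [ENNReal.ofReal_sum_of_nonneg (fun p hp => Finset.sum_nonneg (fun a _ => hf p hp a))]
  apply Finset.sum_congr rfl
  intro p hp
  rw [ENNReal.ofReal_sum_of_nonneg (fun a _ => hf p hp a)]

lemma ofReal_sum3 (s : Finset (Fin 24 × Fin 24)) (f : Fin 24 × Fin 24 → Bool → Bool → ℝ)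
    (hf : ∀ p ∈ s, ∀ a b, 0 ≤ f p a b) :
    ENNReal.ofReal (∑ p ∈ s, ∑ a : Bool, ∑ b : Bool, f p a b)
      = ∑ p ∈ s, ∑ a : Bool, ∑ b : Bool, ENNReal.ofReal (f p a b) := by
  rw [ofReal_sum2 s _ (fun p hp a => Finset.sum_nonneg (fun b _ => hf p hp a b))]
  apply Finset.sum_congr rfl
  intro p hp
  apply Finset.sum_congr rfl
  intro a _
  rw [ENNReal.ofReal_sum_of_nonneg (fun b _ => hf p hp a b)]

lemma lint_sum2 (s : Finset (Fin 24 × Fin 24)) (f : Fin 24 × Fin 24 → Bool → unitInterval → ℝ≥0∞)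
    (hf : ∀ p a, AEMeasurable (f p a) volume) :
    ∫⁻ ω, ∑ p ∈ s, ∑ a : Bool, f p a ω = ∑ p ∈ s, ∑ a : Bool, ∫⁻ ω, f p a ω := by
  rw [lintegral_finsetSum' _ (fun p _ => Finset.aemeasurable_fun_sum _ (fun a _ => hf p a))]
  apply Finset.sum_congr rfl
  intro p _
  rw [lintegral_finsetSum' _ (fun a _ => hf p a)]

lemma lint_sum3 (s : Finset (Fin 24 × Fin 24))
    (f : Fin 24 × Fin 24 → Bool → Bool → unitInterval → ℝ≥0∞)
    (hf : ∀ p a b, AEMeasurable (f p a b) volume) :
    ∫⁻ ω, ∑ p ∈ s, ∑ a : Bool, ∑ b : Bool, f p a b ω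
      = ∑ p ∈ s, ∑ a : Bool, ∑ b : Bool, ∫⁻ ω, f p a b ω := by
  rw [lint_sum2 s (fun p a ω => ∑ b : Bool, f p a b ω)
    (fun p a => Finset.aemeasurable_fun_sum _ (fun b _ => hf p a b))]
  apply Finset.sum_congr rfl
  intro p _
  apply Finset.sum_congr rfl
  intro a _
  rw [lintegral_finsetSum' _ (fun b _ => hf p a b)]

/-- the integrated inequality -/
theorem integrated {q : ℝ} (h0 : 0 < q) (h1 : q ≤ 1 / 100)
    {X : ProbabilityMeasure ℝ → unitInterval → ℝ} (hX : IsCoupling X) :
    2 * (∑ p ∈ (univ : Finset (Fin 24)).offDiag, ∑ a : Bool, ∑ b : Bool,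
        ∫⁻ ω : unitInterval, (if X (V2 q (p.1, a) (p.2, b)) ω = pos q (p.2, !b)
          then (1 : ℝ≥0∞) else 0)) + 552
    ≤ (∑ p ∈ (univ : Finset (Fin 24)).offDiag, ∑ a : Bool,
        ∫⁻ ω : unitInterval, cost q (X (V2 q (p.1, a) (p.2, false)) ω)
          (X (V2 q (p.1, a) (p.2, true)) ω))
      + 3 * ∑ p ∈ (univ : Finset (Fin 24)).offDiag, ∑ a : Bool, ∑ b : Bool,
        ∫⁻ ω : unitInterval, cost q (X (V2 q (p.1, false) (p.1, true)) ω)
          (X (V2 q (p.1, a) (p.2, b)) ω) := by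
  classical
  have hae : ∀ᵐ ω : unitInterval, ∀ S : Finset (Fin 24 × Bool), S.Nonempty →
      ∃ z ∈ S, X (U q S) ω = pos q z := by
    rw [ae_all_iff]
    intro S
    by_cases hS : S.Nonempty
    · filter_upwards [ae_mem (q := q) hX S hS] with ω h _
      exact h
    · filter_upwards with ω h
      exact absurd h hS
  have hpt : ∀ᵐ ω : unitInterval,
      2 * (∑ p ∈ (univ : Finset (Fin 24)).offDiag, ∑ a : Bool, ∑ b : Bool,
        (if X (V2 q (p.1, a) (p.2, b)) ω = pos q (p.2, !b)
          then (1 : ℝ≥0∞) else 0)) + 552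
    ≤ (∑ p ∈ (univ : Finset (Fin 24)).offDiag, ∑ a : Bool,
        cost q (X (V2 q (p.1, a) (p.2, false)) ω)
          (X (V2 q (p.1, a) (p.2, true)) ω))
      + 3 * ∑ p ∈ (univ : Finset (Fin 24)).offDiag, ∑ a : Bool, ∑ b : Bool,
        cost q (X (V2 q (p.1, false) (p.1, true)) ω)
          (X (V2 q (p.1, a) (p.2, b)) ω) := by
    filter_upwards [hae] with ω hω
    choose! g hgS hgX using hω
    set y : Fin 24 → Bool → Fin 24 → Bool → Fin 24 × Bool :=
      fun i a j b => g (univ \ {(i, a), (j, b)}) with hy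
    set x : Fin 24 → Fin 24 × Bool := fun i => g (univ \ {(i, false), (i, true)}) with hx
    have hne : ∀ (i j : Fin 24) (a b : Bool), i ≠ j → ((i, a) : Fin 24 × Bool) ≠ (j, b) :=
      fun i j a b h h2 => h (congrArg Prod.fst h2)
    have hxm : ∀ i, x i ∈ (univ \ {(i, false), (i, true)} : Finset (Fin 24 × Bool)) :=
      fun i => hgS _ (nonempty_compl_pair (by simp))
    have hym : ∀ i a j b, i ≠ j → y i a j b ∈ (univ \ {(i, a), (j, b)} : Finset (Fin 24 × Bool)) :=
      fun i a j b h => hgS _ (nonempty_compl_pair (hne i j a b h))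
    have hxX : ∀ i, X (V2 q (i, false) (i, true)) ω = pos q (x i) :=
      fun i => hgX _ (nonempty_compl_pair (by simp))
    have hyX : ∀ i a j b, i ≠ j → X (V2 q (i, a) (j, b)) ω = pos q (y i a j b) :=
      fun i a j b h => hgX _ (nonempty_compl_pair (hne i j a b h))
    have hcomb := comb (n := 24) (by norm_num) x y (cR q)
      (by
        intro i h
        have := hxm i
        simp only [Finset.mem_sdiff, Finset.mem_univ, true_and, Finset.mem_insert,
          Finset.mem_singleton, not_or] at this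
        rcases hb : (x i).2 with _ | _
        · exact this.1 (Prod.ext h hb)
        · exact this.2 (Prod.ext h hb))
      (by
        intro i a j b h
        have := hym i a j b h
        simp only [Finset.mem_sdiff, Finset.mem_univ, true_and, Finset.mem_insert,
          Finset.mem_singleton, not_or] at this
        exact this.1)
      (by
        intro i a j b h
        have := hym i a j b h
        simp only [Finset.mem_sdiff, Finset.mem_univ, true_and, Finset.mem_insert,
          Finset.mem_singleton, not_or] at this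
        exact this.2)
      (by
        intro i a j b h
        simp only [hy]
        rw [Finset.pair_comm])
      (cR_nonneg q)
      (fun z w h => cR_ne h0 h1 h)
      (fun z w h => cR_far h0 h1 h)
    have hnum : (24 : ℝ) * (((24 : ℕ) : ℝ) - 1) = 552 := by norm_num
    rw [hnum] at hcomb
    set SL : ℝ := ∑ p ∈ (univ : Finset (Fin 24)).offDiag, ∑ a : Bool, ∑ b : Bool,
        if y p.1 a p.2 b = (p.2, !b) then (1 : ℝ) else 0 with hSL
    set S1 : ℝ := ∑ p ∈ (univ : Finset (Fin 24)).offDiag, ∑ a : Bool,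
        cR q (y p.1 a p.2 false) (y p.1 a p.2 true) with hS1
    set S2 : ℝ := ∑ p ∈ (univ : Finset (Fin 24)).offDiag, ∑ a : Bool, ∑ b : Bool,
        cR q (x p.1) (y p.1 a p.2 b) with hS2
    have hSL0 : 0 ≤ SL := by
      apply Finset.sum_nonneg; intro p _; apply Finset.sum_nonneg; intro a _
      apply Finset.sum_nonneg; intro b _; split_ifs <;> norm_num
    have hS10 : 0 ≤ S1 := by
      apply Finset.sum_nonneg; intro p _; apply Finset.sum_nonneg; intro a _
      exact cR_nonneg q _ _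
    have hS20 : 0 ≤ S2 := by
      apply Finset.sum_nonneg; intro p _; apply Finset.sum_nonneg; intro a _
      apply Finset.sum_nonneg; intro b _; exact cR_nonneg q _ _
    have eL : (∑ p ∈ (univ : Finset (Fin 24)).offDiag, ∑ a : Bool, ∑ b : Bool,
        (if X (V2 q (p.1, a) (p.2, b)) ω = pos q (p.2, !b)
          then (1 : ℝ≥0∞) else 0)) = ENNReal.ofReal SL := by
      rw [hSL, ofReal_sum3 _ (fun p a b => if y p.1 a p.2 b = (p.2, !b) then (1 : ℝ) else 0)
        (fun p _ a b => by split_ifs <;> norm_num)]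
      apply Finset.sum_congr rfl
      intro p hp
      apply Finset.sum_congr rfl
      intro a _
      apply Finset.sum_congr rfl
      intro b _
      rw [hyX _ _ _ _ (Finset.mem_offDiag.1 hp).2.2]
      by_cases h : y p.1 a p.2 b = (p.2, !b)
      · rw [if_pos h, if_pos (by rw [h]), ENNReal.ofReal_one]
      · rw [if_neg h, if_neg (fun h2 => h (pos_inj h0 h1 h2)), ENNReal.ofReal_zero]
    have e1 : (∑ p ∈ (univ : Finset (Fin 24)).offDiag, ∑ a : Bool,
        cost q (X (V2 q (p.1, a) (p.2, false)) ω)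
          (X (V2 q (p.1, a) (p.2, true)) ω)) = ENNReal.ofReal S1 := by
      rw [hS1, ofReal_sum2 _ (fun p a => cR q (y p.1 a p.2 false) (y p.1 a p.2 true))
        (fun p _ a => cR_nonneg q _ _)]
      apply Finset.sum_congr rfl
      intro p hp
      apply Finset.sum_congr rfl
      intro a _
      rw [hyX _ _ _ _ (Finset.mem_offDiag.1 hp).2.2, hyX _ _ _ _ (Finset.mem_offDiag.1 hp).2.2]
      rfl
    have e2 : (∑ p ∈ (univ : Finset (Fin 24)).offDiag, ∑ a : Bool, ∑ b : Bool,
        cost q (X (V2 q (p.1, false) (p.1, true)) ω)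
          (X (V2 q (p.1, a) (p.2, b)) ω)) = ENNReal.ofReal S2 := by
      rw [hS2, ofReal_sum3 _ (fun p a b => cR q (x p.1) (y p.1 a p.2 b))
        (fun p _ a b => cR_nonneg q _ _)]
      apply Finset.sum_congr rfl
      intro p hp
      apply Finset.sum_congr rfl
      intro a _
      apply Finset.sum_congr rfl
      intro b _
      rw [hyX _ _ _ _ (Finset.mem_offDiag.1 hp).2.2, hxX]
      rfl
    rw [eL, e1, e2]
    clear_value SL S1 S2
    clear eL e1 e2
    have t2 : (2 : ℝ≥0∞) = ENNReal.ofReal 2 := by simp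
    have t3 : (3 : ℝ≥0∞) = ENNReal.ofReal 3 := by simp
    have t552 : (552 : ℝ≥0∞) = ENNReal.ofReal 552 := by simp
    rw [t2, t3, t552, ← ENNReal.ofReal_mul (by norm_num), ← ENNReal.ofReal_mul (by norm_num),
      ← ENNReal.ofReal_add (mul_nonneg (by norm_num) hSL0) (by norm_num),
      ← ENNReal.ofReal_add hS10 (mul_nonneg (by norm_num) hS20)]
    exact ENNReal.ofReal_le_ofReal hcomb
  have hint := lintegral_mono_ae hpt
  have m1 : ∀ (p : Fin 24 × Fin 24) (a b : Bool), AEMeasurable (fun ω : unitInterval =>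
      if X (V2 q (p.1, a) (p.2, b)) ω = pos q (p.2, !b) then (1 : ℝ≥0∞) else 0) volume :=
    fun p a b => ind_aemeasurable _ hX _
  have m2 : ∀ (p : Fin 24 × Fin 24) (a : Bool), AEMeasurable (fun ω : unitInterval =>
      cost q (X (V2 q (p.1, a) (p.2, false)) ω) (X (V2 q (p.1, a) (p.2, true)) ω)) volume :=
    fun p a => cost_aemeasurable q hX _ _
  have m3 : ∀ (p : Fin 24 × Fin 24) (a b : Bool), AEMeasurable (fun ω : unitInterval =>
      cost q (X (V2 q (p.1, false) (p.1, true)) ω) (X (V2 q (p.1, a) (p.2, b)) ω)) volume :=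
    fun p a b => cost_aemeasurable q hX _ _
  have m1' := Finset.aemeasurable_fun_sum (univ : Finset (Fin 24)).offDiag (fun p _ =>
    Finset.aemeasurable_fun_sum (univ : Finset Bool) (fun a _ =>
      Finset.aemeasurable_fun_sum (univ : Finset Bool) (fun b _ => m1 p a b)))
  have m2' := Finset.aemeasurable_fun_sum (univ : Finset (Fin 24)).offDiag (fun p _ =>
    Finset.aemeasurable_fun_sum (univ : Finset Bool) (fun a _ => m2 p a))
  have m3' := Finset.aemeasurable_fun_sum (univ : Finset (Fin 24)).offDiag (fun p _ =>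
    Finset.aemeasurable_fun_sum (univ : Finset Bool) (fun a _ =>
      Finset.aemeasurable_fun_sum (univ : Finset Bool) (fun b _ => m3 p a b)))
  rw [lintegral_add_right' _ aemeasurable_const, lintegral_const_mul'' _ m1',
    lintegral_add_left' m2', lintegral_const_mul'' _ m3', lint_sum3 _ _ m1, lint_sum2 _ _ m2,
    lint_sum3 _ _ m3, lintegral_const, measure_univ, mul_one] at hint
  exact hint

end Pool.Agent.Helper91PC
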